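import Pool.Agent.Helper95.GB.TP.Main

/-! # MP_694c7f_al: commutator relators in braid groups of graphs

The braid groups (fundamental groups of the unordered configuration spaces) of all planar graphs without
`Theta_4` are genus 1 (the conjecture of Ko and Park), and planarity cannot be omitted: `K_{3,3}` does not
contain `Theta_4`, but its 2-string braid group is not genus 1. -/

set_option autoImplicit false

namespace Pool.Agent.Results.MP_694c7f_al.PlanarGenusOneTop

open GB

theorem result :
    (∀ (V E : Type) [Finite E] (G : Gr V E), G.Connected → G.Planar → ¬ G.HasTheta4 →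
      ∀ (n : ℕ) (s : UConf n (Geo G)), Genus1 (FundamentalGroup (UConf n (Geo G)) s)) ∧
    (KT.K33.Connected ∧ ¬ KT.K33.HasTheta4 ∧
      ∃ s : UConf 2 (Geo KT.K33), ¬ Genus1 (FundamentalGroup (UConf 2 (Geo KT.K33)) s)) :=
  ⟨fun _ _ _ G hc hP hθ n s => planar_genus1_top G hc hP hθ n s,
    KT.conn, KT.noTheta, notGenus_top⟩

end Pool.Agent.Results.MP_694c7f_al.PlanarGenusOneTop
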